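import Mathlib
import Pool.Agent.Lib.MP_26bcd4_gt.Cone

set_option autoImplicit false

namespace Pool.Agent.Results.MP_26bcd4_gt.OuterUnbounded

/-- `U` is an outer illuminating set of `K`: a set of unit vectors such that every boundary point
`x` of `K` has `x + ε • u` in the interior of `K` for some `u ∈ U` and some `0 < ε < 1`. -/
def IsOuterIlluminating {d : ℕ} (K U : Set (EuclideanSpace ℝ (Fin d))) : Prop :=
  (∀ u ∈ U, ‖u‖ = 1) ∧
    ∀ x ∈ frontier K, ∃ u ∈ U, ∃ ε : ℝ, 0 < ε ∧ ε < 1 ∧ x + ε • u ∈ interior K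

/-- `U` is a primitive outer illuminating set of `K`: it is an outer illuminating set and no
proper subset of it is one. -/
def IsPrimitiveOuterIlluminating {d : ℕ} (K U : Set (EuclideanSpace ℝ (Fin d))) : Prop :=
  IsOuterIlluminating K U ∧ ∀ B : Set (EuclideanSpace ℝ (Fin d)), B ⊆ U → B ≠ U →
    ¬ IsOuterIlluminating K B

open Pool.Agent.Lib.MP_26bcd4_gt in
/-- For every `d ≥ 3` there is a convex body in `ℝ^d` that has finite primitive outer
illuminating sets of arbitrarily large cardinality. -/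
theorem result (d : ℕ) (hd : 3 ≤ d) :
    ∃ K : Set (EuclideanSpace ℝ (Fin d)),
      IsCompact K ∧ Convex ℝ K ∧ (interior K).Nonempty ∧
      ∀ m : ℕ, ∃ U : Finset (EuclideanSpace ℝ (Fin d)),
        IsPrimitiveOuterIlluminating K (U : Set (EuclideanSpace ℝ (Fin d))) ∧ m ≤ U.card := by
  let i0 : Fin d := ⟨0, by omega⟩
  let i1 : Fin d := ⟨1, by omega⟩
  let i2 : Fin d := ⟨2, by omega⟩
  have h01 : i0 ≠ i1 := by simp [i0, i1]
  have h02 : i0 ≠ i2 := by simp [i0, i2]
  have h12 : i1 ≠ i2 := by simp [i1, i2]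
  have hn : ∀ i : Fin d, ‖EuclideanSpace.single i (1 : ℝ)‖ = 1 := fun i => by simp
  have ho : ∀ i j : Fin d, i ≠ j →
      inner ℝ (EuclideanSpace.single i (1 : ℝ)) (EuclideanSpace.single j (1 : ℝ)) = (0 : ℝ) := by
    intro i j h
    simp [EuclideanSpace.inner_single_left, h]
  refine ⟨cone (EuclideanSpace.single i0 1), isCompact_cone (hn i0), convex_cone _,
    interior_cone_nonempty (hn i0), fun m => ?_⟩
  obtain ⟨U, h1, h2, h3, h4⟩ := exists_large (hn i0) (hn i1) (hn i2) (ho _ _ h01) (ho _ _ h02)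
    (ho _ _ h12) m
  exact ⟨U, ⟨⟨h1, h2⟩, fun B hB hne hh => h3 B hB hne hh.2⟩, h4⟩

end Pool.Agent.Results.MP_26bcd4_gt.OuterUnbounded
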