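import Mathlib
import Pool.Agent.Lib.MP_26bcd4_gt.Zono

set_option autoImplicit false

namespace Pool.Agent.Results.MP_26bcd4_gt.Zonotopes

/-- `U` is an outer illuminating set of `K`: a set of unit vectors such that every boundary point
`x` of `K` has `x + ε • u` in the interior of `K` for some `u ∈ U` and some `0 < ε < 1`. -/
def IsOuterIlluminating {d : ℕ} (K U : Set (EuclideanSpace ℝ (Fin d))) : Prop :=
  (∀ u ∈ U, ‖u‖ = 1) ∧
    ∀ x ∈ frontier K, ∃ u ∈ U, ∃ ε : ℝ, 0 < ε ∧ ε < 1 ∧ x + ε • u ∈ interior K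

/-- `U` is a primitive outer illuminating set of `K`: it is an outer illuminating set and no
proper subset of it is one. -/
def IsPrimitiveOuterIlluminating {d : ℕ} (K U : Set (EuclideanSpace ℝ (Fin d))) : Prop :=
  IsOuterIlluminating K U ∧ ∀ B : Set (EuclideanSpace ℝ (Fin d)), B ⊆ U → B ≠ U →
    ¬ IsOuterIlluminating K B

open Pool.Agent.Lib.MP_26bcd4_gt in
/-- For every `d ≥ 3` and every `m` there is a zonotope in `ℝ^d` (a sum of finitely many segments)
with nonempty interior that has a primitive outer illuminating set with at least `m` elements. -/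
theorem result (d : ℕ) (hd : 3 ≤ d) (m : ℕ) :
    ∃ (n : ℕ) (g : Fin n → EuclideanSpace ℝ (Fin d)) (K : Set (EuclideanSpace ℝ (Fin d))),
      K = {x | ∃ c : Fin n → ℝ, (∀ i, |c i| ≤ 1) ∧ x = ∑ i, c i • g i} ∧
      IsCompact K ∧ Convex ℝ K ∧ (interior K).Nonempty ∧
      ∃ U : Finset (EuclideanSpace ℝ (Fin d)),
        IsPrimitiveOuterIlluminating K (U : Set (EuclideanSpace ℝ (Fin d))) ∧ m ≤ U.card := by
  obtain ⟨k, rfl⟩ := Nat.exists_eq_add_of_le' hd
  obtain ⟨κ, U, h1, h2, h3, h4⟩ := zono_large k m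
  exact ⟨_, gen k m κ ∘ (Fintype.equivFin _).symm, zono (gen k m κ), (zono_reindex _ _).symm,
    zono_compact _, zono_convex _, gen_interior k m κ, U,
    ⟨⟨h1, h2⟩, fun B hB hne hh => h3 B hB hne hh.2⟩, by omega⟩

end Pool.Agent.Results.MP_26bcd4_gt.Zonotopes
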